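import Mathlib
import Pool.Agent.H84.BR.Exr
import Pool.Agent.H84.LG.TTop
import Pool.Agent.H73.GP.Eqv

/-!
# Every rational map of degree `d` is within `C (log d)^260/d` of a hyperbolic map and within `C (log d)^2/d^2` of a map with an
attracting cycle, both of degree `d`. An error `o(1/d)` for hyperbolic maps holds if and only if Fatou's conjecture holds for all maps
with an attracting cycle, and then the error is at most `C (log d)^2/d^2`.
-/

set_option autoImplicit false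

namespace Pool.Agent.Results.MP_8f2e1c_an.ExactRate

open Polynomial Filter Topology

/-- `f` is the rational map `P/Q` on the sphere. -/
def IsMap (f : OnePoint ℂ → OnePoint ℂ) (P Q : Polynomial ℂ) : Prop :=
  Continuous f ∧
    ∀ z : ℂ, Q.eval z ≠ 0 → f (OnePoint.some z) = OnePoint.some (P.eval z / Q.eval z)

/-- `P/Q` is hyperbolic: the conclusion of the frozen statement `S05373`, word for word. -/
def IsHyperbolic (P Q : Polynomial ℂ) : Prop :=
  ∃ f : OnePoint ℂ → OnePoint ℂ, IsMap f P Q ∧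
    ∀ c : OnePoint ℂ, (¬ ∃ U ∈ nhds c, Set.InjOn f U) →
      ∃ z : OnePoint ℂ, ∃ n : ℕ, 0 < n ∧ f^[n] z = z ∧
        (∃ U ∈ nhds z, ∀ w ∈ U,
          Filter.Tendsto (fun k : ℕ => f^[n * k] w) Filter.atTop (nhds z)) ∧
        Filter.Tendsto (fun k : ℕ => f^[n * k] c) Filter.atTop (nhds z)

/-- `P/Q` has an attracting cycle (words of `S05373`). -/
def HasAttractingCycle (P Q : Polynomial ℂ) : Prop :=
  ∃ f : OnePoint ℂ → OnePoint ℂ, IsMap f P Q ∧
    ∃ z : OnePoint ℂ, ∃ n : ℕ, 0 < n ∧ f^[n] z = z ∧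
      ∃ U ∈ nhds z, ∀ w ∈ U, Filter.Tendsto (fun k : ℕ => f^[n * k] w) Filter.atTop (nhds z)

/-- `P/Q` is a limit of hyperbolic rational maps of degree `n`. -/
def IsLimitOfHyperbolic (n : ℕ) (P Q : Polynomial ℂ) : Prop :=
  ∀ ε : ℝ, 0 < ε → ∃ A B : Polynomial ℂ, IsCoprime A B ∧ max A.natDegree B.natDegree = n ∧
    (∀ i : ℕ, ‖A.coeff i - P.coeff i‖ < ε ∧ ‖B.coeff i - Q.coeff i‖ < ε) ∧ IsHyperbolic A B

/-- the polynomial `T` is a limit of hyperbolic polynomials of degree `n`. -/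
def IsLimitOfHyperbolicPolynomials (n : ℕ) (T : Polynomial ℂ) : Prop :=
  ∀ ε : ℝ, 0 < ε → ∃ A : Polynomial ℂ, A.natDegree = n ∧ (∀ i : ℕ, ‖A.coeff i - T.coeff i‖ < ε) ∧
    IsHyperbolic A 1

/-- The squared Bombieri-Weyl norm `∑ |a_k|^2 / binom(d, k)` of a polynomial of degree at most `d`
(the norm on forms of degree `d` invariant under the rotations of the sphere). -/
noncomputable def weyl (d : ℕ) (P : Polynomial ℂ) : ℝ :=
  ∑ k ∈ Finset.range (d + 1), ‖P.coeff k‖ ^ 2 / (d.choose k : ℝ)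

/-- Every nonzero pair `(P, Q)` of polynomials of degree at most `d` is close, with relative error `κ` in the
squared Bombieri-Weyl norm, to a pair `(P', Q')` defining a hyperbolic rational map of degree exactly `d`. -/
def Approximable (d : ℕ) (κ : ℝ) : Prop :=
  ∀ P Q : Polynomial ℂ, P.natDegree ≤ d → Q.natDegree ≤ d → (P ≠ 0 ∨ Q ≠ 0) →
    ∃ P' Q' : Polynomial ℂ, IsCoprime P' Q' ∧ max P'.natDegree Q'.natDegree = d ∧
      IsHyperbolic P' Q' ∧
      weyl d (P - P') + weyl d (Q - Q') ≤ κ * (weyl d P + weyl d Q)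

/-- The same as `Approximable`, with a pair `(P', Q')` defining a rational map with an attracting cycle. -/
def AttractingApproximable (d : ℕ) (κ : ℝ) : Prop :=
  ∀ P Q : Polynomial ℂ, P.natDegree ≤ d → Q.natDegree ≤ d → (P ≠ 0 ∨ Q ≠ 0) →
    ∃ P' Q' : Polynomial ℂ, IsCoprime P' Q' ∧ max P'.natDegree Q'.natDegree = d ∧
      HasAttractingCycle P' Q' ∧
      weyl d (P - P') + weyl d (Q - Q') ≤ κ * (weyl d P + weyl d Q)

theorem hyp_eq {P Q : Polynomial ℂ} : IsHyperbolic P Q ↔ Pool.Agent.H44.Fatou.Hyp P Q := by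
  constructor
  · rintro ⟨f, ⟨h1, h2⟩, h3⟩
    exact ⟨f, h1, h2, h3⟩
  · rintro ⟨f, h1, h2, h3⟩
    exact ⟨f, ⟨h1, h2⟩, h3⟩

theorem app_eq {d : ℕ} {κ : ℝ} : Approximable d κ ↔ Pool.Agent.H84.BR.App d κ := by
  constructor
  · intro h P Q h1 h2 h3
    obtain ⟨P', Q', k1, k2, k3, k4⟩ := h P Q h1 h2 h3
    exact ⟨P', Q', k1, k2, hyp_eq.1 k3, k4⟩
  · intro h P Q h1 h2 h3
    obtain ⟨P', Q', k1, k2, k3, k4⟩ := h P Q h1 h2 h3
    exact ⟨P', Q', k1, k2, hyp_eq.2 k3, k4⟩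

theorem map_eq {f : OnePoint ℂ → OnePoint ℂ} {P Q : Polynomial ℂ} (hc : IsCoprime P Q)
    (hd : 1 ≤ max P.natDegree Q.natDegree) (h : IsMap f P Q) : f = Pool.Agent.H44.Fatou.rat P Q := by
  have hQ0 : Q ≠ 0 := Pool.Agent.H32.BT.den_ne_zero hc hd
  have hfin : {z : ℂ | Q.eval z = 0}.Finite := by
    refine (Q.roots.toFinset.finite_toSet).subset ?_
    intro z hz
    rw [Finset.mem_coe, Multiset.mem_toFinset, mem_roots hQ0]
    exact hz
  have hdense : Dense {z : ℂ | Q.eval z = 0}ᶜ := hfin.countable.dense_compl ℂ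
  have hdense2 : Dense ((fun z : ℂ => (z : OnePoint ℂ)) '' {z : ℂ | Q.eval z = 0}ᶜ) :=
    OnePoint.denseRange_coe.dense_image OnePoint.continuous_coe hdense
  refine Continuous.ext_on hdense2 h.1 (Pool.Agent.H44.Fatou.rat_continuous hc) ?_
  rintro _ ⟨z, hz, rfl⟩
  exact (h.2 z hz).trans (Pool.Agent.H44.Fatou.rat_coe_of_ne hz).symm

theorem sink_eq {P Q : Polynomial ℂ} (hc : IsCoprime P Q) (hd : 1 ≤ max P.natDegree Q.natDegree) :
    HasAttractingCycle P Q ↔ ∃ z m, Pool.Agent.H32.BT.IsSink (Pool.Agent.H44.Fatou.rat P Q) z m := by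
  constructor
  · rintro ⟨f, hf, z, m, h3, h4, h5⟩
    rw [← map_eq hc hd hf]
    exact ⟨z, m, h3, h4, h5⟩
  · rintro ⟨z, m, h3, h4, h5⟩
    exact ⟨Pool.Agent.H44.Fatou.rat P Q, ⟨Pool.Agent.H44.Fatou.rat_continuous hc,
      fun z hz => Pool.Agent.H44.Fatou.rat_coe_of_ne hz⟩, z, m, h3, h4, h5⟩

theorem lim_eq {n : ℕ} (hn : 1 ≤ n) {P Q : Polynomial ℂ} : IsLimitOfHyperbolic n P Q ↔ Pool.Agent.H84.BR.Lim n P Q := by
  constructor
  · intro h ε hε
    obtain ⟨A, B, k1, k2, k3, k4⟩ := h ε hε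
    exact ⟨A, B, k1, k2, fun i => k3 i, (Pool.Agent.H32.BT.hyp_iff k1 (by omega)).1 (hyp_eq.1 k4)⟩
  · intro h ε hε
    obtain ⟨A, B, k1, k2, k3, k4⟩ := h ε hε
    exact ⟨A, B, k1, k2, fun i => k3 i, hyp_eq.2 ((Pool.Agent.H32.BT.hyp_iff k1 (by omega)).2 k4)⟩

/-- Fatou's conjecture for the maps with an attracting cycle, in both wordings. -/
theorem fatou_eq : (∀ (n : ℕ) (P Q : Polynomial ℂ), 2 ≤ n → IsCoprime P Q → max P.natDegree Q.natDegree = n →
    HasAttractingCycle P Q → IsLimitOfHyperbolic n P Q) ↔ Pool.Agent.H73.GP.FatouSink := by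
  constructor
  · intro h n P Q hn hcop hm hs
    exact (lim_eq (by omega)).1 (h n P Q hn hcop hm ((sink_eq hcop (by omega)).2 hs))
  · intro h n P Q hn hcop hm hs
    exact (lim_eq (by omega)).2 (h n P Q hn hcop hm ((sink_eq hcop (by omega)).1 hs))

/-- Let `D(d)` be the infimum of the `κ` with `Approximable d κ` and `A(d)` the infimum of the `κ` with
`AttractingApproximable d κ`.
(1) There is `C` with `D(d) ≤ C (log d)^260/d` for all `d ≥ 2`.
(2) There is `C` with `A(d) ≤ C (log d)^2/d^2` for all `d ≥ 2`.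
(3) Equivalent: `d D(d)` has lower limit `0`; there is `C` with `D(d) ≤ C (log d)^2/d^2` for all `d ≥ 2`; every rational map of every
degree `n ≥ 2` with an attracting cycle is a limit of hyperbolic rational maps of degree `n`.
(4) If `d D(d)` has lower limit `0`, then every polynomial of every degree `n ≥ 2` is a limit of hyperbolic polynomials of degree
`n`. -/
theorem result :
    (∃ C : ℝ, ∀ d : ℕ, 2 ≤ d → Approximable d (C * (Real.log d ^ 260 / d))) ∧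
    (∃ C : ℝ, ∀ d : ℕ, 2 ≤ d → AttractingApproximable d (C * (Real.log d ^ 2 / d ^ 2))) ∧
    ((∀ (n : ℕ) (P Q : Polynomial ℂ), 2 ≤ n → IsCoprime P Q → max P.natDegree Q.natDegree = n →
        HasAttractingCycle P Q → IsLimitOfHyperbolic n P Q) ↔
      ∀ c : ℝ, 0 < c → ∀ d0 : ℕ, ∃ d : ℕ, d0 ≤ d ∧ Approximable d (c / d)) ∧
    ((∀ (n : ℕ) (P Q : Polynomial ℂ), 2 ≤ n → IsCoprime P Q → max P.natDegree Q.natDegree = n →
        HasAttractingCycle P Q → IsLimitOfHyperbolic n P Q) ↔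
      ∃ C : ℝ, ∀ d : ℕ, 2 ≤ d → Approximable d (C * (Real.log d ^ 2 / d ^ 2))) ∧
    ((∀ c : ℝ, 0 < c → ∀ d0 : ℕ, ∃ d : ℕ, d0 ≤ d ∧ Approximable d (c / d)) →
      ∀ (n : ℕ) (T : Polynomial ℂ), 2 ≤ n → T.natDegree = n → IsLimitOfHyperbolicPolynomials n T) := by
  obtain ⟨-, h2⟩ := Pool.Agent.H84.BR.exact_rate
  refine ⟨?_, ?_, ?_, ?_, fun hA n T hn hT ε hε => ?_⟩
  · obtain ⟨C, hC⟩ := Pool.Agent.H84.LG.polylog_rate
    exact ⟨C, fun d hd => app_eq.2 (hC d hd)⟩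
  · obtain ⟨C, -, hC⟩ := Pool.Agent.H73.GP.sink_dense
    refine ⟨C, fun d hd P Q hP hQ h0 => ?_⟩
    obtain ⟨P', Q', k1, k2, k3, k4⟩ := hC d hd P Q hP hQ h0
    refine ⟨P', Q', k1, k2, (sink_eq k1 (by omega)).2 k3, ?_⟩
    rw [← mul_div_assoc]
    exact k4
  · rw [fatou_eq, Pool.Agent.H73.GP.gap.1]
    constructor
    · intro h c hc d0
      obtain ⟨d, hd, h⟩ := h c hc d0
      exact ⟨d, hd, app_eq.2 h⟩
    · intro h c hc d0
      obtain ⟨d, hd, h⟩ := h c hc d0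
      exact ⟨d, hd, app_eq.1 h⟩
  · rw [fatou_eq, Pool.Agent.H73.GP.gap.2]
    constructor
    · rintro ⟨C, hC⟩
      refine ⟨C, fun d hd => app_eq.2 ?_⟩
      rw [← mul_div_assoc]
      exact hC d hd
    · rintro ⟨C, hC⟩
      refine ⟨C, fun d hd => ?_⟩
      rw [mul_div_assoc]
      exact app_eq.1 (hC d hd)
  · obtain ⟨g1, -⟩ := h2 fun c hc d0 => by
      obtain ⟨d, hd, h⟩ := hA c hc d0
      exact ⟨d, hd, app_eq.1 h⟩
    obtain ⟨A, k1, k2, k3⟩ := g1 n T hn hT ε hε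
    refine ⟨A, k1, k2, hyp_eq.2 ?_⟩
    exact (Pool.Agent.H32.BT.hyp_iff isCoprime_one_right (by rw [k1]; exact le_max_of_le_left (by omega))).2 k3

end Pool.Agent.Results.MP_8f2e1c_an.ExactRate
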