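import Mathlib
import Pool.Agent.H84.PT.Low
import Pool.Agent.H73.PT.Fin

/-!
# Polynomials: the distance to the hyperbolic polynomials of degree `d` is at most `C (log d)^2 / d`, and Fatou's conjecture for
polynomials holds if and only if it is `o(1/d)` along a sequence of degrees
-/

set_option autoImplicit false

namespace Pool.Agent.Results.MP_8f2e1c_an.PolynomialThreshold

open Polynomial Filter Topology

/-- `f` is the rational map `P/Q` on the sphere. -/
def IsMap (f : OnePoint ℂ → OnePoint ℂ) (P Q : Polynomial ℂ) : Prop :=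
  Continuous f ∧
    ∀ z : ℂ, Q.eval z ≠ 0 → f (OnePoint.some z) = OnePoint.some (P.eval z / Q.eval z)

/-- `P/Q` is hyperbolic: the conclusion of the frozen statement `S05373`, word for word. -/
def IsHyperbolic (P Q : Polynomial ℂ) : Prop :=
  ∃ f : OnePoint ℂ → OnePoint ℂ, IsMap f P Q ∧
    ∀ c : OnePoint ℂ, (¬ ∃ U ∈ nhds c, Set.InjOn f U) →
      ∃ z : OnePoint ℂ, ∃ n : ℕ, 0 < n ∧ f^[n] z = z ∧
        (∃ U ∈ nhds z, ∀ w ∈ U,
          Filter.Tendsto (fun k : ℕ => f^[n * k] w) Filter.atTop (nhds z)) ∧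
        Filter.Tendsto (fun k : ℕ => f^[n * k] c) Filter.atTop (nhds z)

/-- All critical points of the polynomial `P` escape: their orbits tend to infinity. -/
def AllCriticalPointsEscape (P : Polynomial ℂ) : Prop :=
  ∀ c : ℂ, P.derivative.eval c = 0 →
    Filter.Tendsto (fun k : ℕ => ‖(fun z : ℂ => P.eval z)^[k] c‖) Filter.atTop Filter.atTop

/-- The polynomial `T` is a limit of hyperbolic polynomials of degree `n`. -/
def IsLimitOfHyperbolicPolynomials (n : ℕ) (T : Polynomial ℂ) : Prop :=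
  ∀ ε : ℝ, 0 < ε → ∃ A : Polynomial ℂ, A.natDegree = n ∧ (∀ i : ℕ, ‖A.coeff i - T.coeff i‖ < ε) ∧
    IsHyperbolic A 1

/-- The squared Bombieri-Weyl norm `∑ |a_k|^2 / binom(d, k)` of a polynomial of degree at most `d`
(the norm on forms of degree `d` invariant under the rotations of the sphere). -/
noncomputable def weyl (d : ℕ) (P : Polynomial ℂ) : ℝ :=
  ∑ k ∈ Finset.range (d + 1), ‖P.coeff k‖ ^ 2 / (d.choose k : ℝ)

/-- Every polynomial of degree at most `d` is close, with error `κ` relative to the pair `(P, 1)` in the squared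
Bombieri-Weyl norm, to a hyperbolic polynomial of degree exactly `d`. -/
def Approximable (d : ℕ) (κ : ℝ) : Prop :=
  ∀ P : Polynomial ℂ, P.natDegree ≤ d → ∃ P' : Polynomial ℂ, P'.natDegree = d ∧
    IsHyperbolic P' 1 ∧ weyl d (P - P') ≤ κ * (weyl d P + 1)

/-- The same with a hyperbolic polynomial of degree exactly `d` all of whose critical points escape. -/
def ApproximableByEscape (d : ℕ) (κ : ℝ) : Prop :=
  ∀ P : Polynomial ℂ, P.natDegree ≤ d → ∃ P' : Polynomial ℂ, P'.natDegree = d ∧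
    IsHyperbolic P' 1 ∧ AllCriticalPointsEscape P' ∧ weyl d (P - P') ≤ κ * (weyl d P + 1)

theorem hyp_eq {P : Polynomial ℂ} (h : 1 ≤ P.natDegree) :
    IsHyperbolic P 1 ↔ Pool.Agent.H32.BT.HypMap (Pool.Agent.H44.Fatou.rat P 1) := by
  rw [← Pool.Agent.H32.BT.hyp_iff isCoprime_one_right (le_max_of_le_left h)]
  constructor
  · rintro ⟨f, ⟨h1, h2⟩, h3⟩
    exact ⟨f, h1, h2, h3⟩
  · rintro ⟨f, h1, h2, h3⟩
    exact ⟨f, ⟨h1, h2⟩, h3⟩

theorem lim_eq {n : ℕ} (hn : 1 ≤ n) {T : Polynomial ℂ} :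
    IsLimitOfHyperbolicPolynomials n T ↔ Pool.Agent.H84.BR.LimP n T := by
  constructor
  · intro h ε hε
    obtain ⟨A, h1, h2, h3⟩ := h ε hε
    exact ⟨A, h1, h2, (hyp_eq (by omega)).1 h3⟩
  · intro h ε hε
    obtain ⟨A, h1, h2, h3⟩ := h ε hε
    exact ⟨A, h1, h2, (hyp_eq (by omega)).2 h3⟩

theorem app_eq {d : ℕ} (hd : 1 ≤ d) {κ : ℝ} : Approximable d κ ↔ Pool.Agent.H84.PT.PolApp d κ := by
  constructor
  · intro h P hP
    obtain ⟨P', h1, h2, h3⟩ := h P hP
    refine ⟨P', h1, (hyp_eq (by omega)).1 h2, ?_⟩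
    rw [add_comm]
    exact h3
  · intro h P hP
    obtain ⟨P', h1, h2, h3⟩ := h P hP
    refine ⟨P', h1, (hyp_eq (by omega)).2 h2, ?_⟩
    rw [add_comm] at h3
    exact h3

/-- Let `D(d)` be the infimum of the `κ` with `Approximable d κ` and `E(d) ≥ D(d)` the infimum of the `κ` with
`ApproximableByEscape d κ`. (1) `E(d) ≤ C (log d)^2 / d` for all `d ≥ 2`. (2) `E(d) ≥ c/d` for all large `d`.
(3) Fatou's conjecture for polynomials (every polynomial of every degree `n ≥ 2` is a limit of hyperbolic polynomials of degree `n`)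
holds if and only if `d D(d)` has lower limit `0`; so either `D(d) = 0` for all `d ≥ 2` or `D(d) ≥ c/d` for all large `d`. -/
theorem result :
    (∃ C : ℝ, ∀ d : ℕ, 2 ≤ d → ApproximableByEscape d (C * Real.log d ^ 2 / d)) ∧
    (∃ c : ℝ, 0 < c ∧ ∃ d0 : ℕ, ∀ d : ℕ, d0 ≤ d → ¬ ApproximableByEscape d (c / d)) ∧
    ((∀ (n : ℕ) (T : Polynomial ℂ), 2 ≤ n → T.natDegree = n → IsLimitOfHyperbolicPolynomials n T) ↔
      ∀ c : ℝ, 0 < c → ∀ d0 : ℕ, ∃ d : ℕ, d0 ≤ d ∧ Approximable d (c / d)) := by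
  refine ⟨?_, ?_, ?_⟩
  · obtain ⟨C, -, hC⟩ := H73.PT.upper
    refine ⟨C, fun d hd P hP => ?_⟩
    obtain ⟨P', h1, h2, h3⟩ := hC d hd P hP
    refine ⟨P', h1, (hyp_eq (by omega)).2 (Pool.Agent.H84.PT.shift_hyp (by omega) h2), h2, ?_⟩
    refine h3.trans (le_of_eq ?_)
    rw [mul_div_assoc]
    rfl
  · obtain ⟨c, hc, d0, H⟩ := Pool.Agent.H84.PT.shift_low
    refine ⟨c, hc, d0, fun d hd hS => H d hd fun P hP => ?_⟩
    obtain ⟨P', h1, h2, h3, h4⟩ := hS P hP
    refine ⟨P', h1, h3, ?_⟩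
    rw [add_comm] at h4
    exact h4
  · constructor
    · intro hF c hc d0
      obtain ⟨d, hd, h⟩ := Pool.Agent.H84.PT.pol_equiv.1 (fun n T hn hT => (lim_eq (by omega)).1 (hF n T hn hT)) c hc
        (max d0 1)
      exact ⟨d, le_of_max_le_left hd, (app_eq (le_of_max_le_right hd)).2 h⟩
    · intro hA n T hn hT
      refine (lim_eq (by omega)).2 (Pool.Agent.H84.PT.pol_equiv.2 (fun c hc d0 => ?_) n T hn hT)
      obtain ⟨d, hd, h⟩ := hA c hc (max d0 1)
      exact ⟨d, le_of_max_le_left hd, (app_eq (le_of_max_le_right hd)).1 h⟩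

end Pool.Agent.Results.MP_8f2e1c_an.PolynomialThreshold
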